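import Pool.Agent.H82.EOL.Stmts

/-!
Row CE of the board eol (MP_e1dfa1_lc): a light node has a common solution.
-/

set_option autoImplicit false

namespace Pool.Agent.H34.EOL

open Finset Pool.Agent.H82.SVL Pool.Agent.H82.EOL

theorem chk_DLe {D X : Type} [DecidableEq X] (I : EI D X) (q : ℕ) (h : I.Bd q) (x : X) :
    Tree.DLe (I.chk x) (4 * q) := by
  have hTo : ∀ x, Tree.DLe (I.To x) (q + (q + 0)) := fun x =>
    (h.1 x).bind fun v => (h.2 v).bind fun u => Tree.DLe_leaf _ _
  have hTi : ∀ x, Tree.DLe (I.Ti x) (q + (q + 0)) := fun x =>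
    (h.2 x).bind fun v => (h.1 v).bind fun u => Tree.DLe_leaf _ _
  have h2 : Tree.DLe (I.chk x) ((q + (q + 0)) + ((q + (q + 0)) + 0)) :=
    (hTo x).bind fun o => (hTi x).bind fun i => Tree.DLe_leaf _ _
  exact h2.mono (by omega)

theorem CE_thm (h1 : S_EX) (h2 : S_GR) : S_CE := by
  intro D X R _ _ _ _ srt h I q b K c M E π hyp hM hne hlight
  by_contra hcon
  push Not at hcon
  have key : ∀ i : ℕ, i ≤ K + 1 → ∃ (r : R) (τ : Om srt) (E' : Finset D) (s : Finset X),
      (r, τ) ∈ Tn h E π ∧ E ⊆ E' ∧ h.EG r τ ⊆ E' ∧ (E' \ E).card ≤ b + i * (4 * q) ∧ s.card = i ∧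
      ∀ y ∈ s, Tree.run τ.1 (I.chk y) = true ∧ Tree.qs τ.1 (I.chk y) ⊆ E' := by
    intro i
    induction i with
    | zero =>
      intro _
      obtain ⟨p, hp⟩ := hne
      refine ⟨p.1, p.2, E ∪ h.EG p.1 p.2, ∅, hp, subset_union_left, subset_union_right, ?_,
        card_empty, fun y hy => absurd hy (notMem_empty y)⟩
      have hb := hyp.hb p (mem_filter.mp hp).1
      have h3 : ((E ∪ h.EG p.1 p.2) \ E).card ≤ (h.EG p.1 p.2).card := by
        rw [union_sdiff_left]
        exact card_le_card sdiff_subset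
      omega
    | succ i ih =>
      intro hi
      obtain ⟨r, τ, E', s, k1, k2, k3, k4, k5, k6⟩ := ih (by omega)
      have hmul : i * (4 * q) ≤ K * (4 * q) := Nat.mul_le_mul_right _ (by omega)
      have hG : (E' \ E).card ≤ b + K * (4 * q) := by omega
      have hY : ((E' \ E).image τ.1).card ≤ b + K * (4 * q) := card_image_le.trans hG
      obtain ⟨p, hp, x, hx1, hx2⟩ := h1 D X R srt h I q b K c M E π (E' \ E) ((E' \ E).image τ.1)
        hyp hM hne hlight (fun a ha => (mem_sdiff.mp ha).2) hG hY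
      obtain ⟨g1, τ', g2, g3, g4⟩ := h2 D X R srt h I E π r τ E' s p x hcon k1 k2 k3 k6 hp hx1
        (fun a ha haE => by
          obtain ⟨e1, e2⟩ := hx2 a ha haE
          exact ⟨fun e3 => e1 (mem_sdiff.mpr ⟨e3, haE⟩), e2⟩)
      refine ⟨r, τ', E' ∪ Tree.qs p.2.1 (I.chk x), insert x s, g2,
        k2.trans subset_union_left, g3, ?_, ?_, g4⟩
      · have h3 : ((E' ∪ Tree.qs p.2.1 (I.chk x)) \ E).card ≤
            (E' \ E).card + (Tree.qs p.2.1 (I.chk x)).card := by
          rw [union_sdiff_distrib]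
          exact (card_union_le _ _).trans (Nat.add_le_add_left (card_le_card sdiff_subset) _)
        have h4 := Tree.card_qs_le p.2.1 (chk_DLe I q hyp.bd x)
        have h5 : (i + 1) * (4 * q) = i * (4 * q) + 4 * q := by ring
        omega
      · rw [card_insert_of_notMem g1, k5]
  obtain ⟨r, τ, E', s, k1, -, -, -, k5, k6⟩ := key (K + 1) le_rfl
  have h3 := hyp.hK (r, τ) (mem_filter.mp k1).1
  have h4 : s ⊆ I.sols τ.1 := fun y hy => by
    unfold EI.sols
    exact mem_filter.mpr ⟨mem_univ _, (k6 y hy).1⟩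
  have h5 := card_le_card h4
  have h6 : (I.sols τ.1).card ≤ K := h3
  omega

end Pool.Agent.H34.EOL
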