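import Pool.Agent.H82.EOL.Stmts

/-!
Row X1 of the board eol (MP_e1dfa1_lc): exchange of the double sum.
-/

set_option autoImplicit false

namespace Pool.Agent.H34.EOL

open Finset Pool.Agent.H82.SVL Pool.Agent.H82.EOL

theorem ind_false {p : Prop} (h : ¬ p) : ind p = 0 := by
  unfold ind
  exact if_neg h

theorem X1_thm : S_X1 := by
  intro D X _ _ _ I f φ
  have hL : ∀ x, ind (Tree.run f (I.To x) = true) * φ (Tree.qs f (I.To x)) =
      ∑ v, ind (x ≠ v ∧ Tree.run f (I.S x) = v ∧ Tree.run f (I.P v) = x) *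
        φ (Tree.qs f (I.S x) ∪ Tree.qs f (I.P v)) := by
    intro x
    rw [Finset.sum_eq_single (Tree.run f (I.S x))]
    · unfold EI.To
      simp only [Tree.run_bind, Tree.qs_bind, Tree.run_leaf, Tree.qs_leaf, Finset.union_empty,
        decide_eq_true_eq, true_and]
      congr 2
      exact propext ⟨fun h => ⟨fun e => h.1 e.symm, h.2⟩, fun h => ⟨fun e => h.1 e.symm, h.2⟩⟩
    · intro v _ hv
      rw [ind_false (fun h => hv h.2.1.symm), zero_mul]
    · intro h
      exact absurd (Finset.mem_univ _) h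
  have hR : ∀ x, ind (Tree.run f (I.Ti x) = true) * φ (Tree.qs f (I.Ti x)) =
      ∑ u, ind (u ≠ x ∧ Tree.run f (I.S u) = x ∧ Tree.run f (I.P x) = u) *
        φ (Tree.qs f (I.S u) ∪ Tree.qs f (I.P x)) := by
    intro x
    rw [Finset.sum_eq_single (Tree.run f (I.P x))]
    · unfold EI.Ti
      simp only [Tree.run_bind, Tree.qs_bind, Tree.run_leaf, Tree.qs_leaf, Finset.union_empty,
        decide_eq_true_eq, and_true]
      rw [Finset.union_comm]
    · intro v _ hv
      rw [ind_false (fun h => hv h.2.2.symm), zero_mul]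
    · intro h
      exact absurd (Finset.mem_univ _) h
  rw [Finset.sum_congr rfl (fun x _ => hL x), Finset.sum_congr rfl (fun x _ => hR x)]
  exact Finset.sum_comm

end Pool.Agent.H34.EOL
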